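import Mathlib

set_option autoImplicit false

namespace Pool.Agent.Results.MP_b60c25_lc.Four

/-- the global map on bi-infinite configurations -/
def glob {n : ℕ} (f : Fin n → Fin n → Fin n) (c : ℤ → Fin n) : ℤ → Fin n :=
  fun p => f (c p) (c (p + 1))

/-- a diamond of length `l`: two different words of length `l + 2` with the same first letter,
the same last letter and the same image -/
def Diamond {n : ℕ} (f : Fin n → Fin n → Fin n) (l : ℕ) : Prop :=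
  ∃ w w' : Fin (l + 2) → Fin n, w ≠ w' ∧ w 0 = w' 0 ∧ w (Fin.last _) = w' (Fin.last _) ∧
    ∀ i : Fin (l + 1), f (w i.castSucc) (w i.succ) = f (w' i.castSucc) (w' i.succ)

/-- the least length of a diamond -/
noncomputable def delta {n : ℕ} (f : Fin n → Fin n → Fin n) : ℕ := sInf {l | 1 ≤ l ∧ Diamond f l}

noncomputable def D (n : ℕ) : ℕ :=
  sSup {d | ∃ f : Fin n → Fin n → Fin n, ¬ Function.Surjective (glob f) ∧ delta f = d}

def f0 : Fin 4 → Fin 4 → Fin 4 := ![![0, 0, 3, 1], ![2, 2, 1, 3], ![0, 1, 3, 2], ![1, 3, 2, 0]]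

lemma orphan : ∀ a b c d e g : Fin 4,
    ¬ (f0 a b = 0 ∧ f0 b c = 1 ∧ f0 c d = 3 ∧ f0 d e = 0 ∧ f0 e g = 2) := by decide +kernel

lemma nonsurj : ¬ Function.Surjective (glob f0) := by
  intro h
  obtain ⟨c, hc⟩ := h fun p => if p = 1 then 1 else if p = 2 then 3 else if p = 4 then 2 else 0
  exact orphan (c 0) (c 1) (c 2) (c 3) (c 4) (c 5)
    ⟨congrFun hc 0, congrFun hc 1, congrFun hc 2, congrFun hc 3, congrFun hc 4⟩

lemma d5 : Diamond f0 5 :=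
  ⟨![0, 0, 3, 3, 3, 2, 0], ![0, 1, 2, 0, 1, 0, 0], by decide +kernel, by decide +kernel,
    by decide +kernel, by decide +kernel⟩

lemma k1 : ∀ p a a' s : Fin 4, f0 p a = f0 p a' → f0 a s = f0 a' s → a = a' := by decide +kernel
lemma k2 : ∀ p a a' : Fin 4, f0 p a = f0 p a' → ∀ b b', f0 a b = f0 a' b' → ∀ s,
    f0 b s = f0 b' s → a = a' ∧ b = b' := by decide +kernel
lemma k3 : ∀ p a a' : Fin 4, f0 p a = f0 p a' → ∀ b b', f0 a b = f0 a' b' → ∀ c c',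
    f0 b c = f0 b' c' → ∀ s, f0 c s = f0 c' s → a = a' ∧ b = b' ∧ c = c' := by decide +kernel
lemma k4 : ∀ p a a' : Fin 4, f0 p a = f0 p a' → ∀ b b', f0 a b = f0 a' b' → ∀ c c',
    f0 b c = f0 b' c' → ∀ d d', f0 c d = f0 c' d' → ∀ s, f0 d s = f0 d' s →
    a = a' ∧ b = b' ∧ c = c' ∧ d = d' := by decide +kernel

lemma n1 : ¬ Diamond f0 1 := by
  rintro ⟨w, w', h, h0, hl, hi⟩
  have hl' : w 2 = w' 2 := hl
  have a0 : f0 (w 0) (w 1) = f0 (w' 0) (w' 1) := hi 0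
  have a1 : f0 (w 1) (w 2) = f0 (w' 1) (w' 2) := hi 1
  rw [← h0] at a0
  rw [← hl'] at a1
  have := k1 _ _ _ _ a0 a1
  apply h
  funext i
  fin_cases i <;> simp_all

lemma n2 : ¬ Diamond f0 2 := by
  rintro ⟨w, w', h, h0, hl, hi⟩
  have hl' : w 3 = w' 3 := hl
  have a0 : f0 (w 0) (w 1) = f0 (w' 0) (w' 1) := hi 0
  have a1 : f0 (w 1) (w 2) = f0 (w' 1) (w' 2) := hi 1
  have a2 : f0 (w 2) (w 3) = f0 (w' 2) (w' 3) := hi 2
  rw [← h0] at a0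
  rw [← hl'] at a2
  obtain ⟨b1, b2⟩ := k2 _ _ _ a0 _ _ a1 _ a2
  apply h
  funext i
  fin_cases i
  exacts [h0, b1, b2, hl']

lemma n3 : ¬ Diamond f0 3 := by
  rintro ⟨w, w', h, h0, hl, hi⟩
  have hl' : w 4 = w' 4 := hl
  have a0 : f0 (w 0) (w 1) = f0 (w' 0) (w' 1) := hi 0
  have a1 : f0 (w 1) (w 2) = f0 (w' 1) (w' 2) := hi 1
  have a2 : f0 (w 2) (w 3) = f0 (w' 2) (w' 3) := hi 2
  have a3 : f0 (w 3) (w 4) = f0 (w' 3) (w' 4) := hi 3
  rw [← h0] at a0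
  rw [← hl'] at a3
  obtain ⟨b1, b2, b3⟩ := k3 _ _ _ a0 _ _ a1 _ _ a2 _ a3
  apply h
  funext i
  fin_cases i
  exacts [h0, b1, b2, b3, hl']

lemma n4 : ¬ Diamond f0 4 := by
  rintro ⟨w, w', h, h0, hl, hi⟩
  have hl' : w 5 = w' 5 := hl
  have a0 : f0 (w 0) (w 1) = f0 (w' 0) (w' 1) := hi 0
  have a1 : f0 (w 1) (w 2) = f0 (w' 1) (w' 2) := hi 1
  have a2 : f0 (w 2) (w 3) = f0 (w' 2) (w' 3) := hi 2
  have a3 : f0 (w 3) (w 4) = f0 (w' 3) (w' 4) := hi 3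
  have a4 : f0 (w 4) (w 5) = f0 (w' 4) (w' 5) := hi 4
  rw [← h0] at a0
  rw [← hl'] at a4
  obtain ⟨b1, b2, b3, b4⟩ := k4 _ _ _ a0 _ _ a1 _ _ a2 _ _ a3 _ a4
  apply h
  funext i
  fin_cases i
  exacts [h0, b1, b2, b3, b4, hl']

theorem result : 5 ≤ D 4 := by
  have hd : 5 ≤ delta f0 := by
    refine le_csInf ⟨5, by norm_num, d5⟩ ?_
    rintro l ⟨h1, h2⟩
    by_contra hc
    have : l = 1 ∨ l = 2 ∨ l = 3 ∨ l = 4 := by omega
    rcases this with rfl | rfl | rfl | rfl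
    exacts [n1 h2, n2 h2, n3 h2, n4 h2]
  refine hd.trans (le_csSup ?_ ⟨f0, nonsurj, rfl⟩)
  refine (Set.finite_range (delta (n := 4))).bddAbove.mono ?_
  rintro d ⟨f, -, rfl⟩
  exact ⟨f, rfl⟩

end Pool.Agent.Results.MP_b60c25_lc.Four
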